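import Mathlib
import Pool.Agent.Lib_MP_9e452d.Main

set_option autoImplicit false

namespace Pool.Agent.Results.MP_9e452d_al.TwoValues

open Pool.Agent.SpreadPGL

/-- Let `F` be a finite field with an odd number `q ≥ 7` of elements. The spread of `PGL(2, F)` is `q - 3` or
`q - 2`. -/
theorem result : ∀ (F : Type) [Field F] [Fintype F], Odd (Fintype.card F) → 7 ≤ Fintype.card F →
    IsSpread (Matrix.ProjGenLinGroup (Fin 2) F) (Fintype.card F - 3) ∨
      IsSpread (Matrix.ProjGenLinGroup (Fin 2) F) (Fintype.card F - 2) := by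
  intro F _ _ hodd hq
  refine main ?_ hq
  intro h
  have := FiniteField.even_card_iff_char_two.1 h
  rw [Nat.odd_iff] at hodd
  omega

end Pool.Agent.Results.MP_9e452d_al.TwoValues
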